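import Pool.Agent.TH167.SM.Open
import Pool.Agent.TH167.SM.Spr

set_option autoImplicit false

/-!
# Configurations of points of given multiplicities: elimination
-/

namespace Pool.Agent.Q78.SP

open MvPolynomial Pool.Agent.W609 Pool.Agent.W609.CR Pool.Agent.TH167.SM

/-- Nonzero vectors which represent different points of the plane, all of them different from the
points `(P i 0 : P i 1 : 1)`. -/
def Conf {K : Type} [Field K] {s k : ℕ} (P : Fin s → Fin 2 → K) (Z : Fin k → Fin 3 → K) : Prop :=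
  (∀ a, Z a ≠ 0) ∧ (∀ a b, a ≠ b → ∀ c : K, Z a ≠ c • Z b) ∧
    ∀ a i, ∀ c : K, Z a ≠ c • (![P i 0, P i 1, 1] : Fin 3 → K)

theorem van_coeff {K : Type} [Field K] (v : Fin 3 → K) (m : ℕ) (f : MvPolynomial (Fin 3) K) :
    Van v m f ↔ ∀ b : Fin 3 →₀ ℕ, b.degree < m → coeff b (shift (n := 2) v f) = 0 :=
  mem_ker_pow_iff (n := 2) v m f

/-- The Taylor expansion at a generic point. -/
noncomputable def gsh {R : Type} [CommRing R] {k : ℕ} (a : Fin k) :
    MvPolynomial (Fin 3) R →+* MvPolynomial (Fin 3) (MvPolynomial (Fin k × Fin 3) R) :=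
  eval₂Hom (C.comp C) (fun l => X l + C (X (a, l)))

theorem gsh_map {R T : Type} [CommRing R] [Field T] {k : ℕ} (a : Fin k) (ψ : R →+* T)
    (Q : Fin k × Fin 3 → T) (g : MvPolynomial (Fin 3) R) :
    map (eval₂Hom ψ Q) (gsh a g) = shift (n := 2) (fun l => Q (a, l)) (map ψ g) := by
  have h : (map (eval₂Hom ψ Q)).comp (gsh a) =
      ((shift (n := 2) (fun l => Q (a, l)) :
        MvPolynomial (Fin 3) T →ₐ[T] MvPolynomial (Fin 3) T) : _ →+* _).comp
        (map ψ : MvPolynomial (Fin 3) R →+* MvPolynomial (Fin 3) T) := by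
    apply MvPolynomial.ringHom_ext
    · intro r
      simp [gsh, shift]
    · intro l
      simp [gsh, shift]
  exact RingHom.congr_fun h g

theorem gsh_coeff {R T : Type} [CommRing R] [Field T] {k : ℕ} (a : Fin k) (ψ : R →+* T)
    (Q : Fin k × Fin 3 → T) (g : MvPolynomial (Fin 3) R) (α : Fin 3 →₀ ℕ) :
    eval₂ ψ Q (coeff α (gsh a g)) = coeff α (shift (n := 2) (fun l => Q (a, l)) (map ψ g)) := by
  rw [← gsh_map, coeff_map]
  rfl

/-- The minors of two vectors. -/
def minor {K : Type} [CommRing K] (δ : Fin 3) (v v' : Fin 3 → K) : K :=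
  v (δ + 1) * v' (δ + 2) - v (δ + 2) * v' (δ + 1)

theorem minor_smul {K : Type} [Field K] (δ : Fin 3) (c : K) (v : Fin 3 → K) :
    minor δ (c • v) v = 0 := by
  unfold minor
  simp only [Pi.smul_apply, smul_eq_mul]
  ring

theorem exists_minor {K : Type} [Field K] {v v' : Fin 3 → K} (hv' : v' ≠ 0)
    (h : ∀ c : K, v ≠ c • v') : ∃ δ, minor δ v v' ≠ 0 := by
  by_contra hcon
  push Not at hcon
  have h0 := hcon 0
  have h1 := hcon 1
  have h2 := hcon 2
  unfold minor at h0 h1 h2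
  have e01 : (0 : Fin 3) + 1 = 1 := rfl
  have e02 : (0 : Fin 3) + 2 = 2 := rfl
  have e11 : (1 : Fin 3) + 1 = 2 := rfl
  have e12 : (1 : Fin 3) + 2 = 0 := rfl
  have e21 : (2 : Fin 3) + 1 = 0 := rfl
  have e22 : (2 : Fin 3) + 2 = 1 := rfl
  rw [e01, e02] at h0
  rw [e11, e12] at h1
  rw [e21, e22] at h2
  obtain ⟨l, hl⟩ : ∃ l, v' l ≠ 0 := by
    by_contra hc
    push Not at hc
    exact hv' (funext hc)
  refine h (v l / v' l) (funext fun i => ?_)
  rw [Pi.smul_apply, smul_eq_mul, div_mul_eq_mul_div, eq_div_iff hl]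
  fin_cases l <;> fin_cases i <;> simp only [Fin.zero_eta, Fin.mk_one, Fin.reduceFinMk] <;>
    first | ring1 | linear_combination h0 | linear_combination -h0 | linear_combination h1 |
      linear_combination -h1 | linear_combination h2 | linear_combination -h2

/-- Elimination of configurations. -/
theorem elim_conf {K L : Type} [Field K] [Field L] [IsAlgClosed L] [Algebra K L] {s N k : ℕ}
    {P : Fin s → Fin 2 → K} (b : Fin N → MvPolynomial (Fin 3) K) {t : Fin N → L}
    (ht : AlgebraicIndependent K t) (m : Fin k → ℕ)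
    (H : ∀ Z : Fin k → Fin 3 → L, Conf (fun i a => algebraMap K L (P i a)) Z →
      ¬ ∀ a, Van (Z a) (m a) (∑ j, C (t j) * map (algebraMap K L) (b j))) :
    ∃ Φ : MvPolynomial (Fin N) K, Φ ≠ 0 ∧ ∀ t : Fin N → K, eval t Φ ≠ 0 →
      ∀ Z : Fin k → Fin 3 → K, Conf P Z → ¬ ∀ a, Van (Z a) (m a) (∑ j, C (t j) * b j) := by
  classical
  have hinj := algebraicIndependent_iff_injective_aeval.1 ht
  obtain ⟨φ, hφ⟩ : ∃ φ : MvPolynomial (Fin N) K →+* L,
    φ = (aeval t : MvPolynomial (Fin N) K →ₐ[K] L) := ⟨_, rfl⟩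
  have hφi : Function.Injective φ := by
    rw [hφ]
    exact hinj
  have hφC : φ.comp C = algebraMap K L := by
    ext c
    rw [hφ]
    simp
  have hφX : ∀ j, φ (X j) = t j := by
    intro j
    rw [hφ]
    simp
  let F : {x : Fin k × (Fin 3 →₀ ℕ) // x.2.degree < m x.1} →
      MvPolynomial (Fin k × Fin 3) (MvPolynomial (Fin N) K) := fun x =>
    coeff x.1.2 (gsh x.1.1 (uG b))
  let h : (Fin k → Fin 3) × (Fin k × Fin s → Fin 2) × (Fin k × Fin k → Fin 3) →
      MvPolynomial (Fin k × Fin 3) (MvPolynomial (Fin N) K) := fun ε =>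
    (∏ a, X (a, ε.1 a)) *
      ((∏ x : Fin k × Fin s, (X (x.1, (ε.2.1 x).castSucc) -
        C (C (P x.2 (ε.2.1 x))) * X (x.1, 2))) *
      ∏ x : Fin k × Fin k, if x.1 = x.2 then 1 else
        (X (x.1, ε.2.2 x + 1) * X (x.2, ε.2.2 x + 2) - X (x.1, ε.2.2 x + 2) * X (x.2, ε.2.2 x + 1)))
  have hh : ∀ (T : Type) [Field T] (ψ : MvPolynomial (Fin N) K →+* T) (q : Fin k × Fin 3 → T) ε,
      eval₂ ψ q (h ε) = (∏ a, q (a, ε.1 a)) *
      ((∏ x : Fin k × Fin s, (q (x.1, (ε.2.1 x).castSucc) -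
        ψ (C (P x.2 (ε.2.1 x))) * q (x.1, 2))) *
      ∏ x : Fin k × Fin k, if x.1 = x.2 then 1 else
        minor (ε.2.2 x) (fun l => q (x.1, l)) (fun l => q (x.2, l))) := by
    intro T _ ψ q ε
    show eval₂ ψ q (_ * (_ * _)) = _
    rw [← coe_eval₂Hom]
    simp only [map_mul, map_prod, map_sub, coe_eval₂Hom, eval₂_X, eval₂_C]
    congr 2
    refine Finset.prod_congr rfl fun x _ => ?_
    split_ifs
    · simp
    · unfold minor
      rw [← coe_eval₂Hom]
      simp only [map_mul, map_sub, coe_eval₂Hom, eval₂_X]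
  have hel := fun ε => elim1 φ hφi F (h ε) (by
    intro q hq
    by_contra hne
    rw [hh] at hne
    have h2 := left_ne_zero_of_mul hne
    have h3 := left_ne_zero_of_mul (right_ne_zero_of_mul hne)
    have h4 := right_ne_zero_of_mul (right_ne_zero_of_mul hne)
    rw [Finset.prod_ne_zero_iff] at h2 h3 h4
    refine H (fun a l => q (a, l)) ⟨fun a h0 => ?_, fun a a' haa c hc => ?_,
      fun a i c hc => ?_⟩ fun a => ?_
    · exact h2 a (Finset.mem_univ a) (congrFun h0 _)
    · have h5 := h4 (a, a') (Finset.mem_univ _)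
      rw [if_neg haa] at h5
      apply h5
      have h6 : (fun l => q (a, l)) = c • fun l => q (a', l) := hc
      show minor _ (fun l => q (a, l)) (fun l => q (a', l)) = 0
      rw [h6]
      exact minor_smul _ _ _
    · apply h3 (a, i) (Finset.mem_univ _)
      have e1 : φ (C (P i (ε.2.1 (a, i)))) = algebraMap K L (P i (ε.2.1 (a, i))) :=
        RingHom.congr_fun hφC _
      have e2 : q (a, 2) = c * 1 := congrFun hc 2
      have e3 : q (a, (ε.2.1 (a, i)).castSucc) = c * algebraMap K L (P i (ε.2.1 (a, i))) := by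
        have e4 := congrFun hc (ε.2.1 (a, i)).castSucc
        revert e4
        generalize ε.2.1 (a, i) = α
        intro e4
        fin_cases α
        · exact e4
        · exact e4
      show q (a, (ε.2.1 (a, i)).castSucc) - φ (C (P i (ε.2.1 (a, i)))) * q (a, 2) = 0
      rw [e1, e2, e3]
      ring
    · rw [van_coeff]
      intro α hα
      have h5 := hq ⟨(a, α), hα⟩
      have h6 : eval₂ φ q (coeff α (gsh a (uG b))) = 0 := h5
      rw [gsh_coeff, map_uG, hφC] at h6
      simp only [hφX] at h6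
      exact h6)
  choose Φ hΦ hΦ' using hel
  refine ⟨∏ ε, Φ ε, Finset.prod_ne_zero_iff.2 fun ε _ => hΦ ε, fun t ht Z hZ hV => ?_⟩
  rw [map_prod, Finset.prod_ne_zero_iff] at ht
  obtain ⟨z1, z2, z3⟩ := hZ
  have c1 : ∀ a, ∃ l, Z a l ≠ 0 := by
    intro a
    by_contra hc
    push Not at hc
    exact z1 a (funext hc)
  choose ε1 hε1 using c1
  have c2 : ∀ x : Fin k × Fin s, ∃ β : Fin 2, Z x.1 β.castSucc - P x.2 β * Z x.1 2 ≠ 0 := by
    intro x
    by_contra hc
    push Not at hc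
    apply z3 x.1 x.2 (Z x.1 2)
    funext l
    have h0 := hc 0
    have h1 := hc 1
    fin_cases l
    · show Z x.1 0 = Z x.1 2 * P x.2 0
      rw [sub_eq_zero] at h0
      rw [mul_comm]
      exact h0
    · show Z x.1 1 = Z x.1 2 * P x.2 1
      rw [sub_eq_zero] at h1
      rw [mul_comm]
      exact h1
    · show Z x.1 2 = Z x.1 2 * 1
      rw [mul_one]
  choose ε2 hε2 using c2
  have c3 : ∀ x : Fin k × Fin k, ∃ δ, x.1 ≠ x.2 → minor δ (Z x.1) (Z x.2) ≠ 0 := by
    intro x
    by_cases hx : x.1 = x.2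
    · exact ⟨0, fun h => absurd hx h⟩
    · obtain ⟨δ, hδ⟩ := exists_minor (z1 x.2) (z2 x.1 x.2 hx)
      exact ⟨δ, fun _ => hδ⟩
  choose ε3 hε3 using c3
  have key := hΦ' (ε1, ε2, ε3) K (eval t) (ht _ (Finset.mem_univ _)) (fun x => Z x.1 x.2) (by
    rintro ⟨⟨a, α⟩, hα⟩
    show eval₂ (eval t) (fun x => Z x.1 x.2) (coeff α (gsh a (uG b))) = 0
    rw [gsh_coeff, map_uG]
    have e1 : (eval t).comp C = RingHom.id K := by
      ext c
      simp
    rw [e1]
    simp only [eval_X, map_id]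
    exact (van_coeff _ _ _).1 (hV a) α hα)
  rw [hh] at key
  have k1 : (∏ a, Z a (ε1 a)) ≠ 0 := Finset.prod_ne_zero_iff.2 fun a _ => hε1 a
  have k2 : (∏ x : Fin k × Fin s, (Z x.1 (ε2 x).castSucc -
      eval t (C (P x.2 (ε2 x))) * Z x.1 2)) ≠ 0 := by
    refine Finset.prod_ne_zero_iff.2 fun x _ => ?_
    rw [eval_C]
    exact hε2 x
  have k3 : (∏ x : Fin k × Fin k, if x.1 = x.2 then (1 : K) else
      minor (ε3 x) (fun l => Z x.1 l) (fun l => Z x.2 l)) ≠ 0 := by
    refine Finset.prod_ne_zero_iff.2 fun x _ => ?_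
    split_ifs with hx
    · exact one_ne_zero
    · exact hε3 x hx
  exact mul_ne_zero k1 (mul_ne_zero k2 k3) key

end Pool.Agent.Q78.SP
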