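import Pool.Agent.Q78.SP.Main

set_option autoImplicit false

/-!
# The singular points of the general member: the open condition
-/

namespace Pool.Agent.Q78.SP

open MvPolynomial Pool.Agent.W609 Pool.Agent.W609.CR Pool.Agent.TH167.SH Pool.Agent.TH167.TT
  Pool.Agent.TH167.DD Pool.Agent.H248R5 Pool.Agent.H248R6 Pool.Agent.TH167.SM Pool.Agent.TH167
  Pool.Agent.TH167.T3 Pool.Agent.TH167.RD Pool.Agent.W641.CR

theorem van_deg {K : Type} [Field K] [CharZero K] {v : Fin 3 → K} (hv : v ≠ 0) {m e : ℕ}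
    {G : MvPolynomial (Fin 3) K} (hG0 : G ≠ 0) (hGe : G.IsHomogeneous e) (h : Van v m G) :
    m ≤ e := by
  obtain ⟨n, hn⟩ := good_n (K := K) (α := Unit) (fun _ => v) (fun _ => hv)
  obtain ⟨a1, a2, -, a4⟩ := (t_lin K).1 _ (Bm_det K n)
  have h1 := (Bm_van (hn ()) hGe m).2 h
  refine van_le ?_ (a1 G e hGe) h1
  intro h0
  obtain ⟨n', hn'⟩ : ∃ n', n' = n := ⟨n, rfl⟩
  have h2 : ∀ m', Van v m' G := fun m' => (Bm_van (hn ()) hGe m').1 (by
    rw [h0]
    exact Ideal.zero_mem _)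
  have h3 := (oq_van hG0 (oq v G + 1)).1 (h2 _)
  omega

theorem conf_comp {K : Type} [Field K] {s k k' : ℕ} {P : Fin s → Fin 2 → K}
    {Z : Fin k → Fin 3 → K} (h : Conf P Z) {e : Fin k' → Fin k} (he : Function.Injective e) :
    Conf P (fun a => Z (e a)) :=
  ⟨fun a => h.1 _, fun a b hab c => h.2.1 _ _ (fun h' => hab (he h')) c, fun a i c => h.2.2 _ _ _⟩

/-- The singular points of the general member. -/
theorem general_bound' {K : Type} [Field K] [CharZero K] [IsAlgClosed K] {s : ℕ}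
    {P : Fin s → Fin 2 → K}
    (hP : AlgebraicIndependent ℚ (fun ij : Fin s × Fin 2 => P ij.1 ij.2)) {w : Fin s → ℕ}
    {d : ℕ} {f : MvPolynomial (Fin 3) K} (hf : f ∈ VS (fun j => aff (P j)) w d)
    {S : Finset (Fin s)}
    (hh : (Squarefree f ∧ S.card ≤ 9) ∨ (Irreducible f ∧ 2 ≤ d ∧ ∑ j ∈ S, w j < 3 * d)) :
    GeneralMember (VS (fun j => aff (P j)) w d) (fun g =>
      ∀ (k : ℕ) (Z : Fin k → Fin 3 → K) (m : Fin k → ℕ), Conf P Z → (∀ a, Van (Z a) (m a) g) →
        Module.finrank K ↥(VS (fun j => aff (P j)) w d) + ∑ i, (w i + 1).choose 2 +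
          ∑ a, (m a).choose 2 ≤ (d + 2).choose 2 + ∑ j, (if j ∈ S then 0 else w j - 2)) := by
  classical
  have hfm := (mem_VS _ _ _ _).1 hf
  have hf0 : f ≠ 0 := by
    rcases hh with h | h
    · exact h.1.ne_zero
    · exact h.1.ne_zero
  have hfin := vs_fin (fun j => aff (P j)) w d
  have hpos := pos_of_mem hf hf0
  obtain ⟨n, hn⟩ : ∃ n, Module.finrank K ↥(VS (fun j => aff (P j)) w d) = n + 1 :=
    ⟨Module.finrank K ↥(VS (fun j => aff (P j)) w d) - 1, by omega⟩
  let b : Module.Basis (Fin (n + 1)) K ↥(VS (fun j => aff (P j)) w d) :=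
    Module.finBasisOfFinrankEq K _ hn
  obtain ⟨L, i1, i2, i3, t, ht, H⟩ := gen_conf hP b hf hh
  have hz := H 0 (fun a => a.elim0) (fun a => a.elim0)
    ⟨fun a => a.elim0, fun a => a.elim0, fun a => a.elim0⟩ (fun a => a.elim0)
  simp only [Finset.univ_eq_empty, Finset.sum_empty, add_zero] at hz
  obtain ⟨A, hA⟩ : ∃ A, A = ∑ i, (w i + 1).choose 2 := ⟨_, rfl⟩
  obtain ⟨c, hc⟩ : ∃ c, c = ∑ j, (if j ∈ S then 0 else w j - 2) := ⟨_, rfl⟩
  obtain ⟨B, hB⟩ : ∃ B, (d + 2).choose 2 + c = n + 1 + A + B := ⟨(d + 2).choose 2 + c - (n + 1 + A), by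
    rw [hA, hc]
    omega⟩
  rw [hn]
  simp only [← hA, ← hc] at H ⊢
  have hel : ∀ x : (Σ k : Fin (B + 2), (Fin k → Fin (d + 1))),
      ∃ Φ : MvPolynomial (Fin (n + 1)) K, Φ ≠ 0 ∧ ∀ t : Fin (n + 1) → K, eval t Φ ≠ 0 →
        B < ∑ a, (x.2 a : ℕ).choose 2 →
        ∀ Z : Fin x.1 → Fin 3 → K, Conf P Z →
          ¬ ∀ a, Van (Z a) (x.2 a : ℕ) (∑ j, C (t j) * (b j : MvPolynomial (Fin 3) K)) := by
    intro x
    by_cases hx : B < ∑ a, (x.2 a : ℕ).choose 2
    · obtain ⟨Φ, h1, h2⟩ := elim_conf (P := P) (fun j => (b j : MvPolynomial (Fin 3) K)) ht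
        (fun a => (x.2 a : ℕ)) (fun Z hZ hV => by
          have h3 := H x.1 (fun a => (x.2 a : ℕ)) Z hZ hV
          omega)
      exact ⟨Φ, h1, fun t ht _ => h2 t ht⟩
    · exact ⟨1, one_ne_zero, fun t _ h => absurd h hx⟩
  choose Φ hΦ hΦ' using hel
  refine general_of_basis b ⟨X 0 * ∏ x, Φ x,
    mul_ne_zero (X_ne_zero _) (Finset.prod_ne_zero_iff.2 fun x _ => hΦ x), fun t ht => ?_⟩
  rw [map_mul, map_prod, eval_X] at ht
  have ht0 := left_ne_zero_of_mul ht
  have ht1 := right_ne_zero_of_mul ht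
  rw [Finset.prod_ne_zero_iff] at ht1
  intro k Z m hZ hV
  obtain ⟨g, hg⟩ : ∃ g, g = ∑ j, t j • (b j : MvPolynomial (Fin 3) K) := ⟨_, rfl⟩
  rw [← hg] at hV
  have hge : g = ∑ j, C (t j) * (b j : MvPolynomial (Fin 3) K) := by
    rw [hg]
    exact Finset.sum_congr rfl fun j _ => by rw [smul_eq_C_mul]
  have hgm : g ∈ VS (fun j => aff (P j)) w d := by
    rw [hg]
    exact Submodule.sum_mem _ fun j _ => Submodule.smul_mem _ _ (b j).2
  have hli : LinearIndependent K (fun j => (b j : MvPolynomial (Fin 3) K)) :=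
    b.linearIndependent.map' (Submodule.subtype _) (Submodule.ker_subtype _)
  have hg0 : g ≠ 0 := by
    intro h0
    rw [hg] at h0
    exact ht0 (Fintype.linearIndependent_iff.1 hli t h0 0)
  have hghom := ((mem_VS _ _ _ _).1 hgm).1
  by_contra hcon
  have hlt : B < ∑ a, (m a).choose 2 := by omega
  have hmd : ∀ a, m a ≤ d := fun a => van_deg (hZ.1 a) hg0 hghom (hV a)
  obtain ⟨T, hT⟩ : ∃ T : Finset (Fin k), T = Finset.univ.filter fun a => 2 ≤ m a := ⟨_, rfl⟩
  obtain ⟨T', hT1, hT2⟩ := Finset.exists_subset_card_eq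
    (show min T.card (B + 1) ≤ T.card from min_le_left _ _)
  have hTm : ∀ a ∈ T, 1 ≤ (m a).choose 2 := by
    intro a ha
    rw [hT, Finset.mem_filter] at ha
    exact Nat.choose_pos ha.2
  have hsum : B < ∑ a ∈ T', (m a).choose 2 := by
    rcases Nat.lt_or_ge (B + 1) T.card with h | h
    · have h1 : T'.card ≤ ∑ a ∈ T', (m a).choose 2 := by
        rw [Finset.card_eq_sum_ones]
        exact Finset.sum_le_sum fun a ha => hTm a (hT1 ha)
      rw [hT2, min_eq_right h.le] at h1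
      omega
    · have h1 : T' = T := Finset.eq_of_subset_of_card_le hT1 (by rw [hT2, min_eq_left h])
      rw [h1, hT, Finset.sum_filter]
      refine lt_of_lt_of_eq hlt (Finset.sum_congr rfl fun a _ => ?_)
      split_ifs with h2
      · rfl
      · exact Nat.choose_eq_zero_of_lt (by omega)
  have hk' : T'.card < B + 2 := by
    rw [hT2]
    have := min_le_right T.card (B + 1)
    omega
  let e : Fin T'.card → Fin k := fun a => (T'.equivFin.symm a).1
  have he : Function.Injective e := fun a a' h =>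
    T'.equivFin.symm.injective (Subtype.ext h)
  have hse : ∑ a : Fin T'.card, (m (e a)).choose 2 = ∑ a ∈ T', (m a).choose 2 := by
    rw [← Finset.sum_coe_sort T', ← Equiv.sum_comp T'.equivFin.symm]
  refine hΦ' ⟨⟨T'.card, hk'⟩, fun a => ⟨m (e a), Nat.lt_succ_of_le (hmd _)⟩⟩ t
    (ht1 _ (Finset.mem_univ _)) ?_ (fun a => Z (e a)) (conf_comp hZ he) fun a => ?_
  · show B < ∑ a : Fin T'.card, (m (e a)).choose 2
    rw [hse]
    exact hsum
  · rw [← hge]
    exact hV (e a)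

/-- The singular points of the general member. -/
theorem general_bound {K : Type} [Field K] [CharZero K] [IsAlgClosed K] {s : ℕ}
    {P : Fin s → Fin 2 → K}
    (hP : AlgebraicIndependent ℚ (fun ij : Fin s × Fin 2 => P ij.1 ij.2)) {w : Fin s → ℕ}
    {d : ℕ} {f : MvPolynomial (Fin 3) K} (hf : f ∈ VS (fun j => aff (P j)) w d)
    {S : Finset (Fin s)}
    (hh : (Squarefree f ∧ S.card ≤ 9) ∨ (Irreducible f ∧ ∑ j ∈ S, w j < 3 * d)) :
    GeneralMember (VS (fun j => aff (P j)) w d) (fun g =>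
      ∀ (k : ℕ) (Z : Fin k → Fin 3 → K) (m : Fin k → ℕ), Conf P Z → (∀ a, Van (Z a) (m a) g) →
        Module.finrank K ↥(VS (fun j => aff (P j)) w d) + ∑ i, (w i + 1).choose 2 +
          ∑ a, (m a).choose 2 ≤ (d + 2).choose 2 + ∑ j, (if j ∈ S then 0 else w j - 2)) := by
  classical
  rcases hh with h | ⟨h1, h2⟩
  · exact general_bound' hP hf (Or.inl h)
  · rcases Nat.lt_or_ge d 2 with hd2 | hd2
    · have hfm := (mem_VS _ _ _ _).1 hf
      have hw : ∀ j, w j ≤ 1 := by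
        intro j
        have h3 := van_le h1.ne_zero hfm.1 (hfm.2 j)
        omega
      have h4 := general_bound' (S := ∅) hP hf (Or.inl ⟨h1.squarefree, by simp⟩)
      have h5 : ∑ j, (if j ∈ S then 0 else w j - 2) =
          ∑ j, (if j ∈ (∅ : Finset (Fin s)) then 0 else w j - 2) := by
        refine Finset.sum_congr rfl fun j _ => ?_
        have := hw j
        split_ifs <;> omega
      rw [h5]
      exact h4
    · exact general_bound' hP hf (Or.inr ⟨h1, hd2, h2⟩)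

end Pool.Agent.Q78.SP
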