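import Pool.Agent.TH167.SM.Hom
import Pool.Agent.TH167.RD.Rigid

set_option autoImplicit false

/-!
# Singular points of plane curves through generic points
-/

namespace Pool.Agent.Q78.SP

open MvPolynomial Pool.Agent.W609 Pool.Agent.W609.CR Pool.Agent.TH167.SH Pool.Agent.TH167.TT
  Pool.Agent.TH167.DD Pool.Agent.H248R5 Pool.Agent.H248R6 Pool.Agent.TH167.SM Pool.Agent.TH167

/-- The spread of the double points, in any space which contains the derivatives. -/
theorem tlemV {K : Type} [Field K] [CharZero K] {ι : Type} [Fintype ι] [DecidableEq ι] {P : ι → Fin 2 → K}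
    {w : ι → ℕ} {d : ℕ} {g : MvPolynomial (Fin 3) K} (hgh : g.IsHomogeneous d) (hg0 : g ≠ 0)
    (hgsq : Squarefree g) {μ : Fin 3 →₀ ℕ} (hμ : coeff μ g = 1) (S : Finset (ι))
    (hord : ∀ j, j ∉ S → Ord (aff (P j)) (w j) g)
    (D : ι × Fin 2 → Derivation ℚ K K)
    (hD : ∀ x i b, D x (P i b) = if i = x.1 ∧ b = x.2 then 1 else 0)
    (W : Submodule K (MvPolynomial (Fin 3) K)) [Module.Finite K W] (hgW : g ∈ W)
    (hDW : ∀ x : ι × Fin 2, x.1 ∉ S → w x.1 ≠ 0 → dG (D x) g ∈ W) :
    1 + 2 * (Finset.univ.filter fun j => j ∉ S ∧ 2 ≤ w j).card +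
        (Finset.univ.filter fun j => j ∉ S ∧ w j = 1).card ≤ Module.finrank K W := by
  classical
  let J : Finset (ι × Fin 2) := Finset.univ.filter fun x => x.1 ∉ S ∧ w x.1 ≠ 0
  have hJ : ∀ x, x ∈ J ↔ x.1 ∉ S ∧ w x.1 ≠ 0 := fun x => by
    show x ∈ Finset.univ.filter (fun x : ι × Fin 2 => x.1 ∉ S ∧ w x.1 ≠ 0) ↔ _
    rw [Finset.mem_filter]
    simp
  have hDx : ∀ x ∈ J, dG (D x) g ∈ W := fun x hx => hDW x ((hJ x).1 hx).1 ((hJ x).1 hx).2
  let Psi : (K × (J → K)) →ₗ[K] MvPolynomial (Fin 3) K :=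
    { toFun := fun q => q.1 • g + ∑ x : J, q.2 x • dG (D x) g
      map_add' := fun q q' => by
        simp only [Prod.fst_add, Prod.snd_add, Pi.add_apply, add_smul, Finset.sum_add_distrib]
        abel
      map_smul' := fun t q => by
        simp only [Prod.smul_fst, Prod.smul_snd, Pi.smul_apply, smul_eq_mul, mul_smul,
          RingHom.id_apply, smul_add, Finset.smul_sum] }
  have hPsi : ∀ q, Psi q = q.1 • g + ∑ x : J, q.2 x • dG (D x) g := fun q => rfl
  have hrange : LinearMap.range Psi ≤ W := by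
    rintro _ ⟨q, rfl⟩
    rw [hPsi]
    refine Submodule.add_mem _ (Submodule.smul_mem _ _ hgW) ?_
    exact Submodule.sum_mem _ fun x _ => Submodule.smul_mem _ _ (hDx x x.2)
  have d1 := Submodule.finrank_mono hrange
  have d2 := LinearMap.finrank_range_add_finrank_ker Psi
  have d3 : Module.finrank K (K × (J → K)) = 1 + J.card := by
    rw [Module.finrank_prod, Module.finrank_self, Module.finrank_fintype_fun_eq_card,
      Fintype.card_coe]
  -- the kernel
  have hker : ∀ q ∈ LinearMap.ker Psi, q.1 = 0 ∧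
      dG (∑ x ∈ Finset.univ, q.2 x • D x.1) g = 0 := by
    intro q hq
    rw [LinearMap.mem_ker, hPsi] at hq
    have e1 := congrArg (coeff μ) hq
    rw [coeff_add, coeff_smul, hμ, coeff_sum, Finset.sum_eq_zero (fun x _ => by
      rw [coeff_smul, coeff_dG, hμ, (D x).map_one_eq_zero, smul_zero]), coeff_zero, add_zero,
      smul_eq_mul, mul_one] at e1
    refine ⟨e1, ?_⟩
    rw [e1, zero_smul, zero_add] at hq
    ext α
    rw [coeff_dG, sum_der, ← hq, coeff_sum]
    exact Finset.sum_congr rfl fun x _ => by rw [coeff_smul, coeff_dG, smul_eq_mul]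
  have hDq : ∀ (a : J → K) (x : J), (∑ y ∈ Finset.univ, a y • D y.1) (P x.1.1 x.1.2) = a x := by
    intro a x
    rw [sum_der, Finset.sum_eq_single x]
    · rw [hD, if_pos ⟨rfl, rfl⟩, mul_one]
    · intro y _ hy
      rw [hD, if_neg, mul_zero]
      intro h
      exact hy (Subtype.ext (Prod.ext h.1.symm h.2.symm))
    · intro h
      exact absurd (Finset.mem_univ _) h
  have hgrad : ∀ j : ι, ∃ b : Fin 2, j ∉ S → w j = 1 →
      eval (aff (P j)) (pderiv (Fin.castSucc b) g) ≠ 0 := by
    intro j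
    by_cases hj : j ∉ S ∧ w j = 1
    · have h2 := hord j hj.1
      rw [hj.2] at h2
      obtain ⟨b, hb⟩ := grad_ne hgh h2
      exact ⟨b, fun _ _ => hb⟩
    · exact ⟨0, fun h h' => absurd ⟨h, h'⟩ hj⟩
  choose β hβ using hgrad
  let T1 : Finset (ι) := Finset.univ.filter fun j => j ∉ S ∧ w j = 1
  have hT1 : ∀ j, j ∈ T1 ↔ j ∉ S ∧ w j = 1 := fun j => by
    show j ∈ Finset.univ.filter (fun j => j ∉ S ∧ w j = 1) ↔ _
    rw [Finset.mem_filter]
    simp
  have hT1J : ∀ (j : T1) (b : Fin 2), ((j.1, b) : ι × Fin 2) ∈ J := by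
    intro j b
    have := (hT1 j.1).1 j.2
    rw [hJ]
    exact ⟨this.1, by rw [this.2]; exact one_ne_zero⟩
  let κ : (K × (J → K)) →ₗ[K] (T1 → K) :=
    { toFun := fun q j => q.2 ⟨(j.1, 1 - β j.1), hT1J j _⟩
      map_add' := fun q q' => rfl
      map_smul' := fun t q => rfl }
  have hinj : Function.Injective (κ.comp (LinearMap.ker Psi).subtype) := by
    rw [← LinearMap.ker_eq_bot, LinearMap.ker_eq_bot']
    rintro ⟨q, hq⟩ hq2
    obtain ⟨e1, e2⟩ := hker q hq
    have hq3 : ∀ j : T1, q.2 ⟨(j.1, 1 - β j.1), hT1J j _⟩ = 0 := fun j => congrFun hq2 j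
    apply Subtype.ext
    apply Prod.ext
    · exact e1
    · funext x
      show q.2 x = 0
      obtain ⟨hx1, hx2⟩ := (hJ x.1).1 x.2
      rcases Nat.lt_or_ge (w x.1.1) 2 with hlt | hge
      · -- a simple point
        have hw1 : w x.1.1 = 1 := by omega
        have hx4 : x.1.1 ∈ T1 := (hT1 _).2 ⟨hx1, hw1⟩
        have hxb : x.1.2 = β x.1.1 ∨ x.1.2 = 1 - β x.1.1 := by
          generalize x.1.2 = b
          generalize β x.1.1 = b'
          fin_cases b <;> fin_cases b' <;> simp
        have hz := hq3 ⟨x.1.1, hx4⟩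
        rcases hxb with hxb | hxb
        · have h2 := der_eval (∑ y ∈ Finset.univ, q.2 y • D y.1) (aff (P x.1.1)) g
          have h3 : eval (aff (P x.1.1)) g = 0 := by
            have := (hord x.1.1 hx1).1
            rw [hw1] at this
            exact (TT.van_one).1 this
          have haff : ∀ b : Fin 2, aff (P x.1.1) (Fin.castSucc b) = P x.1.1 b := by
            intro b
            fin_cases b <;> rfl
          rw [e2, h3, map_zero, map_zero, zero_add, Fin.sum_univ_castSucc] at h2
          have h4 : (∑ y ∈ Finset.univ, q.2 y • D y.1) (aff (P x.1.1) (Fin.last 2)) = 0 := by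
            have : aff (P x.1.1) (Fin.last 2) = 1 := rfl
            rw [this]
            exact Derivation.map_one_eq_zero _
          rw [h4, mul_zero, add_zero] at h2
          have h5 : ∀ b : Fin 2, (∑ y ∈ Finset.univ, q.2 y • D y.1)
              (aff (P x.1.1) (Fin.castSucc b)) = q.2 ⟨(x.1.1, b), hT1J ⟨x.1.1, hx4⟩ b⟩ := by
            intro b
            rw [haff]
            exact hDq q.2 ⟨(x.1.1, b), hT1J ⟨x.1.1, hx4⟩ b⟩
          simp only [h5] at h2
          rw [Finset.sum_eq_single (β x.1.1)] at h2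
          · have h6 := hβ x.1.1 hx1 hw1
            have h7 := (mul_eq_zero.1 h2.symm).resolve_left h6
            have h8 : x = ⟨(x.1.1, β x.1.1), hT1J ⟨x.1.1, hx4⟩ _⟩ :=
              Subtype.ext (Prod.ext rfl hxb)
            rw [h8]
            exact h7
          · intro b _ hb
            have h9 : b = 1 - β x.1.1 := by
              revert hb
              generalize β x.1.1 = b'
              fin_cases b <;> fin_cases b' <;> simp
            subst h9
            rw [hz, mul_zero]
          · intro h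
            exact absurd (Finset.mem_univ _) h
        · have h8 : x = ⟨(x.1.1, 1 - β x.1.1), hT1J ⟨x.1.1, hx4⟩ _⟩ :=
            Subtype.ext (Prod.ext rfl hxb)
          rw [h8]
          exact hz
      · -- a double point
        have h2 : Van (aff (P x.1.1)) 2 g := van_mono hge (hord x.1.1 hx1).1
        have h3 := sing_const (∑ y ∈ Finset.univ, q.2 y • D y.1) hgh hg0 hgsq e2
          (p := P x.1.1) ((TT.van_one).1 (van_mono (by omega) h2)) (fun l => pd_mem h2 l) x.1.2
        rw [hDq q.2 x] at h3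
        exact h3
  have d4 : Module.finrank K ↥(LinearMap.ker Psi) ≤ T1.card := by
    have := LinearMap.finrank_le_finrank_of_injective hinj
    rwa [Module.finrank_fintype_fun_eq_card, Fintype.card_coe] at this
  have d5 : J.card = 2 * (T1.card + (Finset.univ.filter fun j => j ∉ S ∧ 2 ≤ w j).card) := by
    have e1 : J = (T1 ∪ (Finset.univ.filter fun j => j ∉ S ∧ 2 ≤ w j)) ×ˢ
        (Finset.univ : Finset (Fin 2)) := by
      ext x
      rw [hJ, Finset.mem_product, Finset.mem_union, hT1, Finset.mem_filter]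
      constructor
      · rintro ⟨a1, a2⟩
        refine ⟨?_, Finset.mem_univ _⟩
        rcases Nat.lt_or_ge (w x.1) 2 with h | h
        · left
          exact ⟨a1, by omega⟩
        · right
          exact ⟨Finset.mem_univ _, a1, h⟩
      · rintro ⟨a1 | a1, -⟩
        · exact ⟨a1.1, by omega⟩
        · exact ⟨a1.2.1, by omega⟩
    rw [e1, Finset.card_product, Finset.card_union_of_disjoint, Finset.card_univ,
      Fintype.card_fin]
    · ring
    · rw [Finset.disjoint_left]
      intro j hj hj2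
      have a1 := ((hT1 j).1 hj).2
      have a2 := (Finset.mem_filter.1 hj2).2.2
      omega
  have e3 : T1.card = (Finset.univ.filter fun j => j ∉ S ∧ w j = 1).card := rfl
  omega



/-- A bound for the singularities of an irreducible curve, affine points. -/
theorem aff_bound {K : Type} [Field K] [CharZero K] [IsAlgClosed K] {ι κ : Type} [Fintype ι]
    [DecidableEq ι] [Fintype κ] [DecidableEq κ] {e : ℕ} {w : ι → ℕ} {u : κ → ℕ} {S : Finset ι}
    (hsum : ∑ j ∈ S, w j < 3 * e) {P : ι → Fin 2 → K}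
    (hP : AlgebraicIndependent ℚ (fun ij : ι × Fin 2 => P ij.1 ij.2)) {R : κ → Fin 2 → K}
    (hRi : Function.Injective R) (hPR : ∀ j k, P j ≠ R k)
    {G : MvPolynomial (Fin 3) K} (hG : Irreducible G) (hGe : G.IsHomogeneous e) (he : 2 ≤ e)
    (hord : ∀ j, Ord (aff (P j)) (w j) G) (hordR : ∀ k, Ord (aff (R k)) (u k) G) :
    1 + ∑ k, (u k).choose 2 + ∑ j, (w j + 1).choose 2 ≤
      (e + 2).choose 2 + ∑ j, (if j ∈ S then 0 else w j - 2) := by
  classical
  have hPi : Function.Injective P := by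
    intro i j hij
    have h1 := hP.injective (a₁ := (i, 0)) (a₂ := (j, 0)) (congrFun hij 0)
    exact (Prod.mk.inj h1).1
  let Ph : ι ⊕ κ → Fin 2 → K := Sum.elim P R
  let wh : ι ⊕ κ → ℕ := Sum.elim w u
  let Sh : Finset (ι ⊕ κ) := Finset.univ.filter fun x => Sum.elim (fun j => j ∈ S) (fun _ => False) x
  have m1 : ∀ j, (Sum.inl j : ι ⊕ κ) ∈ Sh ↔ j ∈ S := by
    intro j
    show _ ∈ Finset.univ.filter _ ↔ _
    rw [Finset.mem_filter]
    exact ⟨fun h => h.2, fun h => ⟨Finset.mem_univ _, h⟩⟩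
  have m2 : ∀ k, (Sum.inr k : ι ⊕ κ) ∉ Sh := by
    intro k h
    exact (Finset.mem_filter.1 h).2
  have hPh : Function.Injective Ph := by
    rintro (j | k) (j' | k') h
    · exact congrArg _ (hPi h)
    · exact absurd h (hPR j k')
    · exact absurd h.symm (hPR j' k)
    · exact congrArg _ (hRi h)
  have hwh : ∀ x, Ord (aff (Ph x)) (wh x) G := by
    rintro (j | k)
    · exact hord j
    · exact hordR k
  have hSsum : ∑ x ∈ Sh, wh x = ∑ j ∈ S, w j := by
    have e1 := Finset.sum_ite_mem Finset.univ Sh wh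
    rw [Finset.univ_inter] at e1
    have e2 := Finset.sum_ite_mem Finset.univ S w
    rw [Finset.univ_inter] at e2
    rw [← e1, ← e2, Fintype.sum_sum_type]
    have e3 : ∑ k, (if (Sum.inr k : ι ⊕ κ) ∈ Sh then wh (Sum.inr k) else 0) = 0 :=
      Finset.sum_eq_zero fun k _ => if_neg (m2 k)
    rw [e3, add_zero]
    refine Finset.sum_congr rfl fun j _ => ?_
    by_cases hj : j ∈ S
    · rw [if_pos hj, if_pos ((m1 j).2 hj)]
      rfl
    · rw [if_neg hj, if_neg (fun h => hj ((m1 j).1 h))]
  have h1 := adjI hG hGe he hPh hwh Sh (by rw [hSsum]; exact hsum)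
  rw [Fintype.sum_sum_type] at h1
  have e1 : ∑ j, (if (Sum.inl j : ι ⊕ κ) ∈ Sh then (wh (Sum.inl j) + 1).choose 2
      else (wh (Sum.inl j)).choose 2) =
      ∑ j, (if j ∈ S then (w j + 1).choose 2 else (w j).choose 2) := by
    refine Finset.sum_congr rfl fun j _ => ?_
    by_cases hj : j ∈ S
    · rw [if_pos hj, if_pos ((m1 j).2 hj)]
      rfl
    · rw [if_neg hj, if_neg (fun h => hj ((m1 j).1 h))]
      rfl
  have e2 : ∑ k, (if (Sum.inr k : ι ⊕ κ) ∈ Sh then (wh (Sum.inr k) + 1).choose 2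
      else (wh (Sum.inr k)).choose 2) = ∑ k, (u k).choose 2 := by
    refine Finset.sum_congr rfl fun k _ => ?_
    rw [if_neg (m2 k)]
    rfl
  rw [e1, e2] at h1
  -- the space
  obtain ⟨W, hW⟩ : ∃ W, W = VS (fun x => aff (Ph x)) (fun x => if x ∈ Sh then wh x else wh x - 1) e :=
    ⟨_, rfl⟩
  have hWfin : Module.Finite K ↥W := by
    rw [hW]
    exact vs_fin' _ _ _
  have hmem : ∀ f : MvPolynomial (Fin 3) K, f.IsHomogeneous e →
      (∀ j, Van (aff (P j)) (if j ∈ S then w j else w j - 1) f) →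
      (∀ k, Van (aff (R k)) (u k - 1) f) → f ∈ W := by
    intro f f1 f3 f4
    rw [hW, mem_VS]
    refine ⟨f1, ?_⟩
    rintro (j | k)
    · have := f3 j
      by_cases hj : j ∈ S
      · rw [if_pos hj] at this
        rw [if_pos ((m1 j).2 hj)]
        exact this
      · rw [if_neg hj] at this
        rw [if_neg (fun h => hj ((m1 j).1 h))]
        exact this
    · rw [if_neg (m2 k)]
      exact f4 k
  obtain ⟨ν, hν⟩ := MvPolynomial.ne_zero_iff.1 hG.ne_zero
  obtain ⟨g, hg⟩ : ∃ g, g = C (coeff ν G)⁻¹ * G := ⟨_, rfl⟩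
  have hc0 : (coeff ν G)⁻¹ ≠ 0 := inv_ne_zero hν
  have hg1 : coeff ν g = 1 := by rw [hg, coeff_C_mul, inv_mul_cancel₀ hν]
  have hgh : g.IsHomogeneous e := by
    rw [hg]
    exact hGe.C_mul _
  have hg0 : g ≠ 0 := by
    intro h0
    rw [h0, coeff_zero] at hg1
    exact zero_ne_one hg1
  have hGg : G = C (coeff ν G) * g := by
    rw [hg, ← mul_assoc, ← C_mul, mul_inv_cancel₀ hν, C_1, one_mul]
  have hgv : ∀ (v : Fin 3 → K) (m : ℕ), Van v m g ↔ Van v m G := by
    intro v m
    constructor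
    · intro h
      rw [hGg]
      exact Ideal.mul_mem_left _ _ h
    · intro h
      rw [hg]
      exact Ideal.mul_mem_left _ _ h
  have hgsq : Squarefree g := by
    rw [hg]
    have hu : IsUnit (C (coeff ν G)⁻¹ : MvPolynomial (Fin 3) K) :=
      (isUnit_iff_ne_zero.2 hc0).map C
    exact fun x hx => hG.squarefree x (hu.dvd_mul_left.1 hx)
  choose D hD using exists_der _ hP
  have hDx : ∀ (x : ι × Fin 2) i b, D x (P i b) = if i = x.1 ∧ b = x.2 then 1 else 0 := by
    intro x i b
    split_ifs with h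
    · exact (hD x (i, b)).1 (by rw [h.1, h.2])
    · exact (hD x (i, b)).2 (fun h1 => h ⟨by rw [h1], by rw [h1]⟩)
  have h2 := tlemV hgh hg0 hgsq hg1 S (fun j _ => ⟨(hgv _ _).2 (hord j).1,
    fun h => (hord j).2 ((hgv _ _).1 h)⟩) D hDx W (by
      refine hmem g hgh (fun j => ?_) (fun k => ?_)
      · refine (hgv _ _).2 (van_mono ?_ (hord j).1)
        split_ifs <;> omega
      · exact (hgv _ _).2 (van_mono (Nat.sub_le _ _) (hordR k).1)) (by
      intro x hx1 hx2
      refine hmem _ (Pool.Agent.H248R6.dG_homog _ hgh) (fun j => ?_) (fun k => ?_)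
      · by_cases hj : j = x.1
        · subst hj
          rw [if_neg hx1]
          refine der_van _ _ ?_
          rw [Nat.sub_add_cancel (Nat.pos_of_ne_zero hx2)]
          exact (hgv _ _).2 (hord _).1
        · refine van_mono ?_ (der_const (D x) (v := aff (P j)) ?_ (w j)
            ((hgv _ _).2 (hord j).1))
          · split_ifs <;> omega
          · intro l
            fin_cases l
            · show D x (P j 0) = 0
              rw [hDx, if_neg (fun h => hj h.1)]
            · show D x (P j 1) = 0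
              rw [hDx, if_neg (fun h => hj h.1)]
            · show D x 1 = 0
              exact Derivation.map_one_eq_zero _
      · rcases Nat.eq_zero_or_pos (u k) with h0 | h0
        · rw [h0]
          exact van_zero _ _
        · refine der_van _ _ ?_
          rw [Nat.sub_add_cancel h0]
          exact (hgv _ _).2 (hordR k).1)
  have e4 : ∑ j, (w j + 1).choose 2 =
      2 * (Finset.univ.filter fun j => j ∉ S ∧ 2 ≤ w j).card +
        (Finset.univ.filter fun j => j ∉ S ∧ w j = 1).card +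
      ∑ j, (if j ∈ S then (w j + 1).choose 2 else (w j).choose 2) +
      ∑ j, (if j ∈ S then 0 else w j - 2) := by
    rw [Finset.card_filter, Finset.card_filter, Finset.mul_sum, ← Finset.sum_add_distrib,
      ← Finset.sum_add_distrib, ← Finset.sum_add_distrib]
    refine Finset.sum_congr rfl fun j _ => ?_
    have h5 : (w j + 1).choose 2 = (w j).choose 1 + (w j).choose 2 := Nat.choose_succ_succ _ _
    rw [Nat.choose_one_right] at h5
    by_cases hj : j ∈ S
    · simp [hj]
    · rcases Nat.lt_or_ge (w j) 2 with h | h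
      · rcases Nat.lt_or_ge (w j) 1 with h6 | h6
        · have : w j = 0 := by omega
          simp [hj, this]
        · have : w j = 1 := by omega
          simp [hj, this]
      · have h7 : w j ≠ 1 := by omega
        simp only [hj, not_false_eq_true, h, h7, and_self, and_false, if_true, if_false]
        omega
  rw [← hW] at h1
  omega

/-- A bound for the singularities of an irreducible curve. -/
theorem hom_bound {K : Type} [Field K] [CharZero K] [IsAlgClosed K] {ι κ : Type} [Fintype ι]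
    [DecidableEq ι] [Fintype κ] [DecidableEq κ] {e : ℕ} {w : ι → ℕ} {u : κ → ℕ} {S : Finset ι}
    (hsum : ∑ j ∈ S, w j < 3 * e) {P : ι → Fin 2 → K}
    (hP : AlgebraicIndependent ℚ (fun ij : ι × Fin 2 => P ij.1 ij.2)) {R : κ → Fin 3 → K}
    (hR0 : ∀ k, R k ≠ 0)
    (hRi : ∀ k k', k ≠ k' → ∀ c : K, R k ≠ c • R k') (hPR : ∀ j k, ∀ c : K, R k ≠ c • aff (P j))
    {G : MvPolynomial (Fin 3) K} (hG : Irreducible G) (hGe : G.IsHomogeneous e) (he : 2 ≤ e)
    (hord : ∀ j, Ord (aff (P j)) (w j) G) (hordR : ∀ k, Ord (R k) (u k) G) :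
    1 + ∑ k, (u k).choose 2 + ∑ j, (w j + 1).choose 2 ≤
      (e + 2).choose 2 + ∑ j, (if j ∈ S then 0 else w j - 2) := by
  classical
  obtain ⟨n, hn⟩ := good_n (K := K) (α := ι ⊕ κ)
    (fun x => Sum.elim (fun j => aff (P j)) R x) (by
      rintro (j | k)
      · exact aff_ne _
      · exact hR0 k)
  have n1 : ∀ j, c3 n (aff (P j)) ≠ 0 := fun j => hn (Sum.inl j)
  have n2 : ∀ k, c3 n (R k) ≠ 0 := fun k => hn (Sum.inr k)
  obtain ⟨a1, a2, -, -⟩ := (t_lin K).1 _ (Bm_det K n)
  have hO : ∀ {v : Fin 3 → K} {m : ℕ}, c3 n v ≠ 0 → Ord v m G →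
      Ord (aff (af n v)) m (lin (Bm K n) G) := by
    intro v m h h1
    exact ⟨(Bm_van h hGe _).2 h1.1, fun h2 => h1.2 ((Bm_van h hGe _).1 h2)⟩
  have hP' := af_gen hP n1
  have hG1 := a2 G hG
  have hG2 := a1 G e hGe
  have o1 : ∀ j, Ord (aff ((fun j => af n (aff (P j))) j)) (w j) (lin (Bm K n) G) :=
    fun j => hO (n1 j) (hord j)
  have o2 : ∀ k, Ord (aff ((fun k => af n (R k)) k)) (u k) (lin (Bm K n) G) :=
    fun k => hO (n2 k) (hordR k)
  refine aff_bound (P := fun j => af n (aff (P j))) (R := fun k => af n (R k))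
    hsum hP' ?_ ?_ hG1 hG2 he o1 o2
  · intro k k' h
    by_contra hne
    obtain ⟨c, hc⟩ := af_inj (n2 k) (n2 k') h
    exact hRi k k' hne c hc
  · intro j k h
    obtain ⟨c, hc⟩ := af_inj (n2 k) (n1 j) h.symm
    exact hPR j k c hc

end Pool.Agent.Q78.SP
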