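import Pool.Agent.Q78.SP.Red
import Pool.Agent.Q78.SP.Conf
import Pool.Agent.TH167.RD.Super
import Pool.Agent.TH167.SM.Pos3
import Pool.Agent.TH167.SM.General

set_option autoImplicit false

/-!
# The singular points of the general member
-/

namespace Pool.Agent.Q78.SP

open MvPolynomial Pool.Agent.W609 Pool.Agent.W609.CR Pool.Agent.TH167.SH Pool.Agent.TH167.TT
  Pool.Agent.TH167.DD Pool.Agent.H248R5 Pool.Agent.H248R6 Pool.Agent.TH167.SM Pool.Agent.TH167
  Pool.Agent.TH167.T3 Pool.Agent.TH167.RD Pool.Agent.W641.CR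

/-- The generic member. -/
theorem gen_conf {K : Type} [Field K] [CharZero K] [IsAlgClosed K] {s : ℕ}
    {P : Fin s → Fin 2 → K}
    (hP : AlgebraicIndependent ℚ (fun ij : Fin s × Fin 2 => P ij.1 ij.2)) {w : Fin s → ℕ}
    {d n : ℕ} (b : Module.Basis (Fin (n + 1)) K ↥(VS (fun j => aff (P j)) w d))
    {f : MvPolynomial (Fin 3) K} (hf : f ∈ VS (fun j => aff (P j)) w d) {S : Finset (Fin s)}
    (hh : (Squarefree f ∧ S.card ≤ 9) ∨ (Irreducible f ∧ 2 ≤ d ∧ ∑ j ∈ S, w j < 3 * d)) :
    ∃ (L : Type) (_ : Field L) (_ : Algebra K L) (_ : IsAlgClosed L) (t : Fin (n + 1) → L),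
      AlgebraicIndependent K t ∧
      ∀ (k : ℕ) (m : Fin k → ℕ) (Z : Fin k → Fin 3 → L),
        Conf (fun i a => algebraMap K L (P i a)) Z →
        (∀ a, Van (Z a) (m a)
          (∑ j, C (t j) * map (algebraMap K L) (b j : MvPolynomial (Fin 3) K))) →
        n + 1 + ∑ i, (w i + 1).choose 2 + ∑ a, (m a).choose 2 ≤
          (d + 2).choose 2 + ∑ j, (if j ∈ S then 0 else w j - 2) := by
  classical
  obtain ⟨L, i1, i2, i3, i4, Q, t, D, hPQ, hD, hK, hN, h1, hG⟩ := gen_member hP b
  obtain ⟨G, hGd⟩ : ∃ G, G = ∑ j, C (t j) *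
    map (algebraMap K L) (b j : MvPolynomial (Fin 3) K) := ⟨_, rfl⟩
  rw [← hGd] at hG
  have hfm := (mem_VS _ _ _ _).1 hf
  have hli : LinearIndependent K (fun j => (b j : MvPolynomial (Fin 3) K)) :=
    b.linearIndependent.map' (Submodule.subtype _) (Submodule.ker_subtype _)
  have hG0 : G ≠ 0 := by
    intro h0
    rw [hGd] at h0
    have h2 := congrFun (lin_ind_map hli h0) 0
    have h3 := hD 0 0
    rw [h2, Pi.zero_apply, map_zero, if_pos rfl] at h3
    exact zero_ne_one h3
  obtain ⟨ww, hww⟩ : ∃ ww, ww = wwt w (fun k : Fin (n + 4) => if k.1 < n then 1 else 0) :=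
    ⟨_, rfl⟩
  obtain ⟨T, hT⟩ : ∃ T : Finset (Fin (s + (n + 4))),
    T = S.map ⟨fun j => finSumFinEquiv (Sum.inl j), fun a b h => by
      simpa using h⟩ := ⟨_, rfl⟩
  have hTl : ∀ i : Fin s, finSumFinEquiv (Sum.inl i) ∈ T ↔ i ∈ S := by
    intro i
    rw [hT, Finset.mem_map]
    constructor
    · rintro ⟨j, hj, hij⟩
      have h2 : (finSumFinEquiv (Sum.inl j) : Fin (s + (n + 4))) = finSumFinEquiv (Sum.inl i) := hij
      have h3 := Sum.inl.inj (finSumFinEquiv.injective h2)
      rwa [← h3]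
    · intro hi
      exact ⟨i, hi, rfl⟩
  have hTr : ∀ k : Fin (n + 4), (finSumFinEquiv (Sum.inr k) : Fin (s + (n + 4))) ∉ T := by
    intro k hk
    rw [hT, Finset.mem_map] at hk
    obtain ⟨j, -, hij⟩ := hk
    have h2 : (finSumFinEquiv (Sum.inl j) : Fin (s + (n + 4))) = finSumFinEquiv (Sum.inr k) := hij
    exact absurd (finSumFinEquiv.injective h2) (by simp)
  rw [← hww] at hG h1
  have hord := exact_ord hPQ h1 hG hG0
  have hGm := (mem_VS _ _ _ _).1 hG
  have hcost : ∑ j, (if j ∈ T then 0 else ww j - 2) = ∑ j, (if j ∈ S then 0 else w j - 2) := by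
    rw [← Equiv.sum_comp finSumFinEquiv, Fintype.sum_sum_type]
    have e1 : ∀ i : Fin s, (if finSumFinEquiv (Sum.inl i) ∈ T then 0 else
        ww (finSumFinEquiv (Sum.inl i)) - 2) = if i ∈ S then 0 else w i - 2 := by
      intro i
      rw [hww, wwt_inl]
      by_cases hi : i ∈ S
      · rw [if_pos hi, if_pos ((hTl i).2 hi)]
      · rw [if_neg hi, if_neg fun h => hi ((hTl i).1 h)]
    have e2 : ∀ k : Fin (n + 4), (if finSumFinEquiv (Sum.inr k) ∈ T then 0 else
        ww (finSumFinEquiv (Sum.inr k)) - 2) = 0 := by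
      intro k
      rw [if_neg (hTr k), hww, wwt_inr]
      split_ifs <;> rfl
    rw [Finset.sum_congr rfl fun i _ => e1 i, Finset.sum_congr rfl fun k _ => e2 k]
    simp
  have hch : ∑ j, (ww j + 1).choose 2 = ∑ i, (w i + 1).choose 2 + n := by
    rw [hww]
    exact wwt_choose (n := n) w
  -- the bound for the curve
  have hb : ∀ (κ : Type) [Fintype κ] [DecidableEq κ] (R : κ → Fin 3 → L) (u : κ → ℕ),
      (∀ k, R k ≠ 0) → (∀ k k', k ≠ k' → ∀ c : L, R k ≠ c • R k') →
      (∀ j k, ∀ c : L, R k ≠ c • aff (PPt P Q j)) → (∀ k, Ord (R k) (u k) G) →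
      1 + ∑ k, (u k).choose 2 + ∑ j, (ww j + 1).choose 2 ≤
        (d + 2).choose 2 + ∑ j, (if j ∈ T then 0 else ww j - 2) := by
    intro κ _ _ R u r0 r1 r2 r3
    rcases hh with ⟨hsq, hS⟩ | ⟨hirr, hd2, hsum⟩
    · have hfc : f = ∑ j, C (b.repr ⟨f, hf⟩ j) * (b j : MvPolynomial (Fin 3) K) := by
        have h2 := congrArg Subtype.val (b.sum_repr ⟨f, hf⟩)
        simp only [Submodule.coe_sum, Submodule.coe_smul] at h2
        conv_lhs => rw [← h2]
        exact Finset.sum_congr rfl fun j _ => by rw [smul_eq_C_mul]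
      have hGsq : Squarefree G := by
        rw [hGd]
        refine sq_gen (d := d) hD hK (fun j => ((mem_VS _ _ _ _).1 (b j).2).1)
          (c := fun j => b.repr ⟨f, hf⟩ j) ?_
        rw [← hfc]
        exact hsq
      exact red_bound (r := s + n) (S := T) (by
        rw [hT, Finset.card_map]
        exact hS) hPQ r0 r1 r2 d ww u G hGsq hGm.1 hord r3
    · -- special points
      have hn : Module.finrank K ↥(VS (fun j => aff (P j)) w d) = n + 1 := by
        rw [Module.finrank_eq_card_basis b, Fintype.card_fin]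
      obtain ⟨Q0, hQ0, hQ1⟩ := pick hirr hfm.1 hd2 n (VS (fun j => aff (P j)) w d)
        (fun g hg => ((mem_VS _ _ _ _).1 hg).1) hf hn
      obtain ⟨Q2, hQ2⟩ : ∃ Q2 : Fin (n + 4) → Fin 2 → K, ∀ (k : Fin (n + 4)) (h : k.1 < n),
          Q2 k = Q0 ⟨k.1, h⟩ :=
        ⟨fun k => if h : k.1 < n then Q0 ⟨k.1, h⟩ else 0, fun k h => dif_pos h⟩
      have hmem : ∀ g : MvPolynomial (Fin 3) K, g ∈ VS (fun j => aff (PPt P Q2 j)) ww d ↔
          g ∈ VS (fun j => aff (P j)) w d ∧ ∀ k, eval (aff (Q0 k)) g = 0 := by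
        intro g
        rw [hww, mem_PPt]
        refine and_congr Iff.rfl ⟨fun h k => ?_, fun h k => ?_⟩
        · have h2 := h (Fin.castAdd 4 k)
          rw [if_pos (show (Fin.castAdd 4 k).1 < n from k.2), hQ2 _ k.2] at h2
          exact TT.van_one.1 h2
        · split_ifs with hk
          · rw [hQ2 k hk]
            exact TT.van_one.2 (h _)
          · exact van_zero _ _
      have hfs := (hmem f).2 ⟨hf, hQ0⟩
      have h1s : Module.finrank K ↥(VS (fun j => aff (PPt P Q2 j)) ww d) = 1 := by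
        refine (finrank_eq_one_iff_of_nonzero' ⟨f, hfs⟩
          (fun h => hirr.ne_zero (congrArg Subtype.val h))).2 fun g => ?_
        obtain ⟨g1, g2⟩ := (hmem g.1).1 g.2
        obtain ⟨c, hc⟩ := hQ1 g.1 g1 g2
        exact ⟨c, Subtype.ext hc⟩
      have hGi : Irreducible G := irr_of_special hPQ h1s hfs hirr hG hG0
      exact irr_bound (r := s + n) (S := T) (by
        rw [hT, Finset.sum_map]
        refine lt_of_eq_of_lt (Finset.sum_congr rfl fun j _ => ?_) hsum
        rw [hww]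
        exact wwt_inl _ _ _) hPQ r0 r1 r2 hGi hGm.1 hord r3
  refine ⟨L, i1, i3, i4, t, jac_ind hD hK, fun k m Z hZ hV => ?_⟩
  rw [← hGd] at hV
  obtain ⟨z1, z2, z3⟩ := hZ
  -- the points different from the auxiliary ones
  let A : Type := {a : Fin k // ∀ j, ∀ c : L, Z a ≠ c • aff (PPt P Q j)}
  have hA := hb A (fun a => Z a.1) (fun a => oq (Z a.1) G) (fun a => z1 a.1)
    (fun a a' h c => z2 a.1 a'.1 (fun h' => h (Subtype.ext h')) c) (fun j a c => a.2 j c)
    (fun a => (oq_ord hG0 _).2 rfl)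
  have hs : ∑ a, (m a).choose 2 ≤ ∑ a : A, (oq (Z a.1) G).choose 2 := by
    have e1 : ∑ a : A, (oq (Z a.1) G).choose 2 =
        ∑ a ∈ Finset.univ.filter (fun a => ∀ j, ∀ c : L, Z a ≠ c • aff (PPt P Q j)),
          (oq (Z a) G).choose 2 := by
      rw [Finset.sum_subtype (Finset.univ.filter fun a => ∀ j, ∀ c : L, Z a ≠ c • aff (PPt P Q j))
        (p := fun a => ∀ j, ∀ c : L, Z a ≠ c • aff (PPt P Q j)) (by simp)]
    rw [e1, ← Finset.sum_filter_add_sum_filter_not Finset.univ
      (fun a => ∀ j, ∀ c : L, Z a ≠ c • aff (PPt P Q j)) (fun a => (m a).choose 2)]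
    have e2 : ∑ a ∈ Finset.univ.filter (fun a => ¬ ∀ j, ∀ c : L, Z a ≠ c • aff (PPt P Q j)),
        (m a).choose 2 = 0 := by
      refine Finset.sum_eq_zero fun a ha => ?_
      rw [Finset.mem_filter] at ha
      have h2 := ha.2
      push Not at h2
      obtain ⟨j, c, hc⟩ := h2
      have hc0 : c ≠ 0 := by
        rintro rfl
        rw [zero_smul] at hc
        exact z1 a hc
      obtain ⟨y, rfl⟩ := (finSumFinEquiv (m := s) (n := n + 4)).surjective j
      rcases y with i | l
      · exfalso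
        rw [PPt_inl] at hc
        exact z3 a i c hc
      · have h3 := hV a
        rw [hc, (t_lin L).2 G d hGm.1 c hc0] at h3
        have h4 := hord (finSumFinEquiv (Sum.inr l))
        have h5 : m a ≤ ww (finSumFinEquiv (Sum.inr l)) := by
          by_contra hcon
          exact h4.2 (van_mono (by omega) h3)
        rw [hww, wwt_inr] at h5
        have h6 : (if l.1 < n then 1 else 0) ≤ 1 := by split_ifs <;> omega
        exact Nat.choose_eq_zero_of_lt (by omega)
    rw [e2, add_zero]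
    refine Finset.sum_le_sum fun a _ => Nat.choose_le_choose 2 ?_
    exact (oq_van hG0 _).1 (hV a)
  rw [hcost, hch] at hA
  omega

end Pool.Agent.Q78.SP
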