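import Pool.Agent.Q78.SP.Irr

set_option autoImplicit false

/-!
# Singular points of reduced plane curves through generic points
-/

namespace Pool.Agent.Q78.SP

open MvPolynomial Pool.Agent.W609 Pool.Agent.W609.CR Pool.Agent.TH167.SH Pool.Agent.TH167.TT
  Pool.Agent.TH167.DD Pool.Agent.H248R5 Pool.Agent.H248R6 Pool.Agent.TH167.SM Pool.Agent.TH167
  Pool.Agent.TH167.T3 Pool.Agent.TH167.RD


/-- Irreducible curves. -/
theorem irr_bound {K : Type} [Field K] [CharZero K] [IsAlgClosed K] {r : ℕ} {κ : Type}
    [Fintype κ] [DecidableEq κ] {e : ℕ} {w : Fin (r + 4) → ℕ} {u : κ → ℕ}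
    {S : Finset (Fin (r + 4))}
    (hsum : ∑ j ∈ S, w j < 3 * e) {P : Fin (r + 4) → Fin 2 → K}
    (hP : AlgebraicIndependent ℚ (fun ij : Fin (r + 4) × Fin 2 => P ij.1 ij.2))
    {R : κ → Fin 3 → K} (hR0 : ∀ k, R k ≠ 0)
    (hRi : ∀ k k', k ≠ k' → ∀ c : K, R k ≠ c • R k') (hPR : ∀ j k, ∀ c : K, R k ≠ c • aff (P j))
    {G : MvPolynomial (Fin 3) K} (hG : Irreducible G) (hGe : G.IsHomogeneous e)
    (hord : ∀ j, Ord (aff (P j)) (w j) G) (hordR : ∀ k, Ord (R k) (u k) G) :
    1 + ∑ k, (u k).choose 2 + ∑ j, (w j + 1).choose 2 ≤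
      (e + 2).choose 2 + ∑ j, (if j ∈ S then 0 else w j - 2) := by
  classical
  rcases Nat.lt_or_ge e 2 with he | he
  · have he0 := deg_pos hG hGe
    have h1 := (prime9 (S := ∅) (by simp) (fun j _ => by
      have := van_le hG.ne_zero hGe (hord j).1
      omega) hP hG hGe hord).1
    have hGm : G ∈ VS (fun j => aff (P j)) w e := (mem_VS _ _ _ _).2 ⟨hGe, fun j => (hord j).1⟩
    have hpos := pos_of_mem hGm hG.ne_zero
    rw [chi_cast] at h1
    have h2 : ∑ k, (u k).choose 2 = 0 := by
      refine Finset.sum_eq_zero fun k _ => ?_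
      have h3 := deg_one (v := R k) hGe (by omega) hG.ne_zero
      have h4 : u k < 2 := by
        by_contra hcon
        exact h3 (van_mono (by omega) (hordR k).1)
      exact Nat.choose_eq_zero_of_lt h4
    omega
  · exact hom_bound hsum hP hR0 hRi hPR hG hGe he hord hordR

/-- Irreducible curves and at most nine exceptions. -/
theorem irr_bound9 {K : Type} [Field K] [CharZero K] [IsAlgClosed K] {r : ℕ} {κ : Type}
    [Fintype κ] [DecidableEq κ] {e : ℕ} {w : Fin (r + 4) → ℕ} {u : κ → ℕ}
    {S : Finset (Fin (r + 4))} (hS : S.card ≤ 9) {P : Fin (r + 4) → Fin 2 → K}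
    (hP : AlgebraicIndependent ℚ (fun ij : Fin (r + 4) × Fin 2 => P ij.1 ij.2))
    {R : κ → Fin 3 → K} (hR0 : ∀ k, R k ≠ 0)
    (hRi : ∀ k k', k ≠ k' → ∀ c : K, R k ≠ c • R k') (hPR : ∀ j k, ∀ c : K, R k ≠ c • aff (P j))
    {G : MvPolynomial (Fin 3) K} (hG : Irreducible G) (hGe : G.IsHomogeneous e)
    (hord : ∀ j, Ord (aff (P j)) (w j) G) (hordR : ∀ k, Ord (R k) (u k) G) :
    1 + ∑ k, (u k).choose 2 + ∑ j, (w j + 1).choose 2 ≤
      (e + 2).choose 2 + ∑ j, (if j ∈ S then 0 else w j - 2) := by
  classical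
  rcases pos9 hS hP hG hGe hord with h1 | ⟨h1, i, hi⟩
  · exact irr_bound h1 hP hR0 hRi hPR hG hGe hord hordR
  · subst h1
    have h2 : ∀ j, w j ≤ 2 := by
      intro j
      by_cases hij : j = i
      · rw [hij, hi]
        norm_num
      · rcases pair_irr (inj_of_alg hP) hG hGe hord hij with h3 | ⟨h3, -⟩
        · omega
        · omega
    have h3 := irr_bound (S := ∅) (by simp) hP hR0 hRi hPR hG hGe hord hordR
    have h4 : ∑ j, (if j ∈ (∅ : Finset (Fin (r + 4))) then 0 else w j - 2) = 0 := by
      refine Finset.sum_eq_zero fun j _ => ?_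
      have := h2 j
      split_ifs <;> omega
    omega

/-- Reduced curves and at most nine exceptions. -/
theorem red_bound {K : Type} [Field K] [CharZero K] [IsAlgClosed K] {r : ℕ} {κ : Type}
    [Fintype κ] [DecidableEq κ] {S : Finset (Fin (r + 4))} (hS : S.card ≤ 9)
    {P : Fin (r + 4) → Fin 2 → K}
    (hP : AlgebraicIndependent ℚ (fun ij : Fin (r + 4) × Fin 2 => P ij.1 ij.2))
    {R : κ → Fin 3 → K} (hR0 : ∀ k, R k ≠ 0)
    (hRi : ∀ k k', k ≠ k' → ∀ c : K, R k ≠ c • R k')
    (hPR : ∀ j k, ∀ c : K, R k ≠ c • aff (P j)) :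
    ∀ (e : ℕ) (w : Fin (r + 4) → ℕ) (u : κ → ℕ) (G : MvPolynomial (Fin 3) K), Squarefree G →
      G.IsHomogeneous e → (∀ j, Ord (aff (P j)) (w j) G) → (∀ k, Ord (R k) (u k) G) →
      1 + ∑ k, (u k).choose 2 + ∑ j, (w j + 1).choose 2 ≤
        (e + 2).choose 2 + ∑ j, (if j ∈ S then 0 else w j - 2) := by
  classical
  intro e
  induction e using Nat.strong_induction_on with
  | _ e ih =>
    intro w u G hsq hGe hord hordR
    have hG0 : G ≠ 0 := hsq.ne_zero
    by_cases hu : IsUnit G
    · have he : e = 0 := SM.unit_deg hGe hG0 hu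
      subst he
      have hw : ∀ j, w j = 0 := by
        intro j
        have := van_le hG0 hGe (hord j).1
        omega
      have hu0 : ∀ k, u k < 2 := by
        intro k
        by_contra hcon
        exact deg_one (v := R k) hGe (by omega) hG0 (van_mono (by omega) (hordR k).1)
      have h2 : ∑ j, (w j + 1).choose 2 = 0 := Finset.sum_eq_zero fun j _ => by rw [hw j]; rfl
      have h4 : ∑ k, (u k).choose 2 = 0 :=
        Finset.sum_eq_zero fun k _ => Nat.choose_eq_zero_of_lt (hu0 k)
      have h3 : (0 + 2).choose 2 = 1 := rfl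
      omega
    · obtain ⟨G1, hG1, hG1d⟩ := WfDvdMonoid.exists_irreducible_factor hu hG0
      obtain ⟨H, hH⟩ := hG1d
      have hH0 : H ≠ 0 := fun h0 => hG0 (by rw [hH, h0, mul_zero])
      have hG1e := Pool.Agent.Chud.homog_of_dvd hGe hG0 (⟨H, hH⟩ : G1 ∣ G)
      have hHe := Pool.Agent.Chud.homog_of_dvd hGe hG0 (⟨G1, by rw [hH]; ring⟩ : H ∣ G)
      obtain ⟨a, ha⟩ : ∃ a, a = G1.totalDegree := ⟨_, rfl⟩
      obtain ⟨b, hb⟩ : ∃ b, b = H.totalDegree := ⟨_, rfl⟩
      rw [← ha] at hG1e
      rw [← hb] at hHe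
      have ha0 := deg_pos hG1 hG1e
      have hdeg : a + b = e := by
        have h2 := hG1e.mul hHe
        rw [← hH] at h2
        exact h2.inj_right hGe hG0
      have o1 : ∀ v, Ord v (oq v G1) G1 := fun v => (oq_ord hG1.ne_zero _).2 rfl
      have o2 : ∀ v, Ord v (oq v H) H := fun v => (oq_ord hH0 _).2 rfl
      have o3 : ∀ v, oq v G = oq v G1 + oq v H := fun v => by
        rw [hH]
        exact oq_mul v hG1.ne_zero hH0
      have hw : w = fun j => oq (aff (P j)) G1 + oq (aff (P j)) H := by
        funext j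
        rw [← o3]
        exact ((oq_ord hG0 _).1 (hord j)).symm
      have hu' : u = fun k => oq (R k) G1 + oq (R k) H := by
        funext k
        rw [← o3]
        exact ((oq_ord hG0 _).1 (hordR k)).symm
      have hnd : ¬ G1 ∣ H := by
        rintro ⟨q, hq⟩
        exact hG1.not_isUnit (hsq G1 ⟨q, by rw [hH, hq]; ring⟩)
      have hHsq : Squarefree H := by
        rw [hH] at hsq
        exact hsq.of_mul_right
      have b1 := irr_bound9 hS hP hR0 hRi hPR hG1 hG1e (fun j => o1 _) (fun k => o1 (R k))
      have b2 := ih b (by omega) _ _ H hHsq hHe (fun j => o2 _) (fun k => o2 (R k))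
      have b3 := bezH (ι := Fin (r + 4) ⊕ κ) (v := Sum.elim (fun j => aff (P j)) R)
        (u := fun x => oq (Sum.elim (fun j => aff (P j)) R x) G1)
        (w := fun x => oq (Sum.elim (fun j => aff (P j)) R x) H) (by
          rintro (j | k)
          · exact aff_ne _
          · exact hR0 k) (by
          rintro (j | k) (j' | k') hne c
          · intro h
            have h2 := congrFun h 2
            have h3 : c = 1 := by
              have h4 : (c • aff (P j')) 2 = c * 1 := rfl
              rw [Sum.elim_inl, Sum.elim_inl, h4, mul_one] at h2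
              exact h2.symm
            rw [Sum.elim_inl, Sum.elim_inl, h3, one_smul] at h
            have h5 : P j = P j' := by
              funext a
              have h6 := congrFun h (Fin.castSucc a)
              fin_cases a
              · exact h6
              · exact h6
            exact hne (congrArg _ (inj_of_alg hP h5))
          · intro h
            rw [Sum.elim_inl, Sum.elim_inr] at h
            have hc : c ≠ 0 := by
              rintro rfl
              rw [zero_smul] at h
              exact aff_ne _ h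
            exact hPR j k' c⁻¹ (by rw [h, smul_smul, inv_mul_cancel₀ hc, one_smul])
          · exact hPR j' k c
          · exact hRi k k' (fun h => hne (congrArg _ h)) c) hG1 hG1e
        (fun x => (o1 _).1) hH0 hHe (fun x => (o2 _).1) hnd
      rw [Fintype.sum_sum_type] at b3
      simp only [Sum.elim_inl, Sum.elim_inr] at b3
      have b4 := cost_add S (fun j => oq (aff (P j)) G1) (fun j => oq (aff (P j)) H)
      have b5 : ∀ x y : ℕ, (x + y).choose 2 = x.choose 2 + y.choose 2 + x * y := by
        intro x y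
        have h1 := Nat.choose_two_right (x + y)
        have h2 : ∀ n : ℕ, 2 * n.choose 2 + n = n * n := by
          intro n
          induction n with
          | zero => rfl
          | succ n ihn =>
            have h3 : (n + 1).choose 2 = n.choose 1 + n.choose 2 := Nat.choose_succ_succ _ _
            rw [Nat.choose_one_right] at h3
            nlinarith
        have h3 := h2 x
        have h4 := h2 y
        have h5 := h2 (x + y)
        nlinarith
      have b6 : ∑ k, (u k).choose 2 = ∑ k, (oq (R k) G1).choose 2 + ∑ k, (oq (R k) H).choose 2 +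
          ∑ k, oq (R k) G1 * oq (R k) H := by
        rw [← Finset.sum_add_distrib, ← Finset.sum_add_distrib, hu']
        exact Finset.sum_congr rfl fun k _ => b5 _ _
      have b7 : ∑ j, (w j + 1).choose 2 = ∑ j, (oq (aff (P j)) G1 + 1).choose 2 +
          ∑ j, (oq (aff (P j)) H + 1).choose 2 +
          ∑ j, oq (aff (P j)) G1 * oq (aff (P j)) H := by
        rw [← Finset.sum_add_distrib, ← Finset.sum_add_distrib, hw]
        refine Finset.sum_congr rfl fun j _ => ?_
        have h1 := b5 (oq (aff (P j)) G1 + oq (aff (P j)) H) 1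
        have h2 := b5 (oq (aff (P j)) G1) 1
        have h3 := b5 (oq (aff (P j)) H) 1
        have h4 := b5 (oq (aff (P j)) G1) (oq (aff (P j)) H)
        have h5 : Nat.choose 1 2 = 0 := rfl
        rw [h5] at h1 h2 h3
        show (oq (aff (P j)) G1 + oq (aff (P j)) H + 1).choose 2 = _
        omega
      have b8 : (e + 2).choose 2 + 1 = (a + 2).choose 2 + (b + 2).choose 2 + a * b := by
        rw [← hdeg]
        have h1 := b5 (a + b) 2
        have h2 := b5 a 2
        have h3 := b5 b 2
        have h4 := b5 a b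
        have h5 : Nat.choose 2 2 = 1 := rfl
        rw [h5] at h1 h2 h3
        omega
      have b9 : ∑ j, (if j ∈ S then 0 else w j - 2) = ∑ j, (if j ∈ S then 0 else
          oq (aff (P j)) G1 + oq (aff (P j)) H - 2) := by rw [hw]
      omega

end Pool.Agent.Q78.SP
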